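import Pool.Agent.H95.End.Side

set_option autoImplicit false

/-!
MP_a46c6f_co: a word of weight three with a side without own edges, from the counting step; the case
of a leaf, and the conclusion.
-/

namespace Pool.Agent.H95.End

open Finset Pool.Agent.H98.Code Pool.Agent.H26.TR Pool.Agent.H74.CT

variable {V : Type} [Fintype V] [DecidableEq V]
variable {L : Submodule (ZMod 2) (V → K)} {S : (V → K) → Finset V → Prop}
  {e : V} {D : V → K} {P : Finset (Finset V)} {M0 : Finset V}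

theorem z_or_zero {a : K} (h : a.1 = 0) : a = 0 ∨ a = z := by
  revert h
  revert a; decide

theorem form_two (u w : V → K) (p q : V) (hpq : p ≠ q)
    (h : ∀ v, v ≠ p → v ≠ q → kf (u v) (w v) = 0) :
    form u w = kf (u p) (w p) + kf (u q) (w q) := by
  unfold form
  rw [← Finset.add_sum_erase _ _ (Finset.mem_univ p),
    ← Finset.add_sum_erase _ _ (Finset.mem_erase.2 ⟨hpq.symm, Finset.mem_univ q⟩)]
  have : ∑ x ∈ (univ.erase p).erase q, kf (u x) (w x) = 0 := by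
    refine Finset.sum_eq_zero fun x hx => ?_
    rw [Finset.mem_erase, Finset.mem_erase] at hx
    exact h x hx.2.1 hx.1
  rw [this, add_zero]

theorem form_three (u w : V → K) (p q s : V) (hpq : p ≠ q) (hps : p ≠ s) (hqs : q ≠ s)
    (h : ∀ v, v ≠ p → v ≠ q → v ≠ s → kf (u v) (w v) = 0) :
    form u w = kf (u p) (w p) + (kf (u q) (w q) + kf (u s) (w s)) := by
  unfold form
  rw [← Finset.add_sum_erase _ _ (Finset.mem_univ p),
    ← Finset.add_sum_erase _ _ (Finset.mem_erase.2 ⟨hpq.symm, Finset.mem_univ q⟩),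
    ← Finset.add_sum_erase _ _ (Finset.mem_erase.2 ⟨hqs.symm,
      Finset.mem_erase.2 ⟨hps.symm, Finset.mem_univ s⟩⟩)]
  have : ∑ x ∈ ((univ.erase p).erase q).erase s, kf (u x) (w x) = 0 := by
    refine Finset.sum_eq_zero fun x hx => ?_
    rw [Finset.mem_erase, Finset.mem_erase, Finset.mem_erase] at hx
    exact h x hx.2.2.1 hx.2.1 hx.1
  rw [this, add_zero]

/-- a part has two elements -/
theorem other_elt (iso : ∀ u ∈ L, ∀ w ∈ L, form u w = 0) (one : (fun _ => z) ∈ L)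
    (letter : ∀ v, v ≠ e → (D v).1 = 1) (hP : IsParts L e D P) {N : Finset V} (hN : N ∈ P) (b : V) :
    ∃ w ∈ N, w ≠ b := by
  by_contra hcon
  push Not at hcon
  obtain ⟨x, hx⟩ := Finset.nonempty_iff_ne_empty.2 (hP.mem N hN).1
  have hxb : x = b := hcon x hx
  have hxe : x ≠ e := fun h0 => (hP.mem N hN).2.1 (h0 ▸ hx)
  have h1 := iso _ (hP.mem N hN).2.2 _ one
  rw [form_two _ _ x e hxe] at h1
  · have h2 : pw D e N x = D x := by rw [pw, if_neg hxe, if_pos hx]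
    have h3 : pw D e N e = z := by rw [pw, if_pos rfl]
    rw [h2, h3, kf_z_right, kf_z_right, letter x hxe] at h1
    exact absurd h1 (by decide)
  · intro v hvx hve
    have hvN : v ∉ N := fun h0 => hvx ((hcon v h0).trans hxb.symm)
    rw [pw, if_neg hve, if_neg hvN, kf_zero_left]

/-- **case 2**: the word of a leaf has a side without own vertices -/
theorem leaf_side (hS : Sides L S) (iso : ∀ u ∈ L, ∀ w ∈ L, form u w = 0)
    (one : (fun _ => z) ∈ L) (noz : ∀ u ∈ L, (∀ v, v ≠ e → u v = 0) → u e ≠ z)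
    (letter : ∀ v, v ≠ e → (D v).1 = 1) (hP : IsParts L e D P) (hM0 : M0 ∈ P)
    (hgz : ∀ u ∈ L, (∀ v, v ∉ M0 → v ≠ e → u v = 0 ∨ u v = D v) → (u e = 0 ∨ u e = z) →
      (∀ v ∈ M0, (u v).1 = 0) → ∀ v ∈ M0, u v = 0)
    {y : V → V → K}
    (hy : ∀ m ∈ M0, y m ∈ L ∧ (y m m).1 = 1 ∧ (∀ v ∈ M0, v ≠ m → (y m v).1 = 0) ∧
      (∀ v, v ∉ M0 → v ≠ e → y m v = 0 ∨ y m v = D v) ∧ (y m e).1 = 0)
    {l g b : V} {M1 : Finset V} {c : V → K} (hl : l ∈ M0) (hg : g ∈ M0) (hgl : g ≠ l)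
    (hM1 : M1 ∈ P) (hM10 : M1 ≠ M0) (hb : b ∈ M1) (hc : c ∈ L) (hcg : c g = z)
    (hcl : (c l).1 = 1) (hcb : c b = D b) (hc0 : ∀ v, v ≠ g → v ≠ l → v ≠ b → c v = 0)
    {r : V → K} {a : V} (hr : r ∈ L) (hre : (r e).1 = 1) (hr0 : ∀ v ∈ M0, (r v).1 = 0)
    (hra : ∀ v ∈ M0, (r v = z ↔ v = a))
    (hrM : ∀ v ∈ M1, v ≠ b → kf (r v) (D v) = 0) : S c ∅ := by
  classical
  have heM0 : e ∉ M0 := (hP.mem M0 hM0).2.1
  have hge : g ≠ e := fun h0 => heM0 (h0 ▸ hg)
  have hle : l ≠ e := fun h0 => heM0 (h0 ▸ hl)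
  have hbe : b ≠ e := fun h0 => (hP.mem M1 hM1).2.1 (h0 ▸ hb)
  have hbM0 : b ∉ M0 := Finset.disjoint_left.1 (hP.disj M1 hM1 M0 hM0 hM10) hb
  have hgb : g ≠ b := fun h0 => hbM0 (h0 ▸ hg)
  have hlb : l ≠ b := fun h0 => hbM0 (h0 ▸ hl)
  have hce : c e = 0 := hc0 e hge.symm hle.symm hbe.symm
  have hcg0 : c g ≠ 0 := by rw [hcg]; exact z_ne_zero
  have hcl0 : c l ≠ 0 := ne_zero_of_fst hcl
  have hcb0 : c b ≠ 0 := by rw [hcb]; exact ne_zero_of_fst (letter b hbe)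
  have hsupp : ∀ w, c w ≠ 0 → w = g ∨ w = l ∨ w = b := by
    intro w hw
    by_contra hcon
    push Not at hcon
    exact hw (hc0 w hcon.1 hcon.2.1 hcon.2.2)
  -- the side without `e`
  obtain ⟨Y, hY, heY⟩ : ∃ Y, S c Y ∧ e ∉ Y := by
    obtain ⟨Y0, hY0⟩ := hS.ex c hc
    by_cases h0 : e ∈ Y0
    · obtain ⟨Y', h1, h2⟩ := hS.compl c Y0 hY0
      exact ⟨Y', h1, fun h3 => (h2 e hce).1 h3 h0⟩
    · exact ⟨Y0, hY0, h0⟩
  have hYne : ∀ v ∈ Y, v ≠ e ∧ v ≠ g ∧ v ≠ l ∧ v ≠ b := by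
    intro v hv
    have hv0 := hS.own _ _ hY v hv
    exact ⟨fun h0 => heY (h0 ▸ hv), fun h0 => hcg0 (h0 ▸ hv0), fun h0 => hcl0 (h0 ▸ hv0),
      fun h0 => hcb0 (h0 ▸ hv0)⟩
  -- the part inside the side, normalised at `l`
  have key : ∀ u' ∈ L, (u' g = 0 ∨ u' g = z) → u' l = 0 → (u' b = 0 ∨ u' b = D b) →
      ∃ κ ∈ L, κ l = 0 ∧ (κ g = 0 ∨ κ g = z) ∧ (κ b = 0 ∨ κ b = D b) ∧
        (∀ w ∈ Y, κ w = u' w) ∧ ∀ w, w ∉ Y → w ≠ g → w ≠ l → w ≠ b → κ w = 0 := by
    intro u' hu' hug hul hub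
    obtain ⟨κ, Y₁, Y₂, h1, h2, h3, h4, h5, h6, h7⟩ := hS.part c Y hY u' hu' (by
      intro w hw
      rcases hsupp w hw with rfl | rfl | rfl
      · rw [hcg]; exact hug
      · exact Or.inl hul
      · rw [hcb]; exact hub)
    have hκL := hS.mem _ _ h1
    have k1 := h7 l hcl0
    have k2 := h7 g hcg0
    have k3 := h7 b hcb0
    rw [hcg] at k2
    rw [hcb] at k3
    have hzero : ∀ w, w ∉ Y → w ≠ g → w ≠ l → w ≠ b → κ w = 0 := by
      intro w hw h8 h9 h10
      exact h6 w (hc0 w h8 h9 h10) hw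
    rcases k1 with k1 | k1
    · exact ⟨κ, hκL, k1, k2, k3, h5, hzero⟩
    · refine ⟨κ + c, L.add_mem hκL hc, ?_, ?_, ?_, ?_, ?_⟩
      · rw [Pi.add_apply, k1, add_self_K]
      · rw [Pi.add_apply, hcg]
        rcases k2 with k2 | k2
        · right; rw [k2, zero_add]
        · left; rw [k2, add_self_K]
      · rw [Pi.add_apply, hcb]
        rcases k3 with k3 | k3
        · right; rw [k3, zero_add]
        · left; rw [k3, add_self_K]
      · intro w hw
        rw [Pi.add_apply, hS.own _ _ hY w hw, add_zero]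
        exact h5 w hw
      · intro w hw h8 h9 h10
        rw [Pi.add_apply, hzero w hw h8 h9 h10, hc0 w h8 h9 h10, add_zero]
  -- step 1
  have step1 : ∀ v ∈ Y, v ∈ M0 := by
    intro v hv
    obtain ⟨hve, hvg, hvl, hvb⟩ := hYne v hv
    obtain ⟨N, hN, hvN⟩ := hP.cover v hve
    by_contra hvM0
    have hNM0 : N ≠ M0 := fun h0 => hvM0 (h0 ▸ hvN)
    have hdis : ∀ w ∈ M0, w ∉ N := fun w hw hw' =>
      Finset.disjoint_left.1 (hP.disj N hN M0 hM0 hNM0) hw' hw
    have hpw : ∀ w, w ≠ e → pw D e N w = 0 ∨ pw D e N w = D w := by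
      intro w hw
      by_cases hwN : w ∈ N
      · right; rw [pw, if_neg hw, if_pos hwN]
      · left; rw [pw, if_neg hw, if_neg hwN]
    obtain ⟨κ, hκL, k1, k2, k3, k4, k5⟩ := key (pw D e N) (hP.mem N hN).2.2
      (Or.inl (by rw [pw, if_neg hge, if_neg (hdis g hg)]))
      (by rw [pw, if_neg hle, if_neg (hdis l hl)]) (hpw b hbe)
    have hκe : κ e = 0 := k5 e heY hge.symm hle.symm hbe.symm
    have hcan : ∀ w, w ∉ M0 → w ≠ e → κ w = 0 ∨ κ w = D w := by
      intro w hwM0 hwe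
      by_cases hwb : w = b
      · rw [hwb]; exact k3
      · by_cases hwY : w ∈ Y
        · rw [k4 w hwY]; exact hpw w hwe
        · left
          exact k5 w hwY (fun h0 => hwM0 (h0 ▸ hg)) (fun h0 => hwM0 (h0 ▸ hl)) hwb
    have hM00 : ∀ w ∈ M0, κ w = 0 := by
      apply hgz κ hκL hcan (Or.inl hκe)
      intro w hw
      by_cases hwg : w = g
      · rw [hwg]
        rcases k2 with k2 | k2 <;> rw [k2] <;> rfl
      by_cases hwl : w = l
      · rw [hwl, k1]; rfl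
      have hwb : w ≠ b := fun h0 => hbM0 (h0 ▸ hw)
      by_cases hwY : w ∈ Y
      · have hwe : w ≠ e := fun h0 => heM0 (h0 ▸ hw)
        rw [k4 w hwY, pw, if_neg hwe, if_neg (hdis w hw)]; rfl
      · rw [k5 w hwY hwg hwl hwb]; rfl
    have hKD : KD L D e κ := by
      refine ⟨hκL, ?_, Or.inl hκe⟩
      intro w hwe
      by_cases hw : w ∈ M0
      · exact Or.inl (hM00 w hw)
      · exact hcan w hw hwe
    have hκv : κ v ≠ 0 := by
      rw [k4 v hv, pw, if_neg hve, if_pos hvN]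
      exact ne_zero_of_fst (letter v hve)
    have hNsub : N ⊆ H26.TR.sup e κ := by
      rcases hP.union κ hKD N hN with h8 | h8
      · exact h8
      · exact absurd (mem_sup.2 ⟨hve, hκv⟩) (Finset.disjoint_left.1 h8 hvN)
    -- another part
    have hex : ∃ w, w ≠ e ∧ (κ + pw D e N) w ≠ 0 := by
      by_contra hcon
      push Not at hcon
      refine noz _ (L.add_mem hκL (hP.mem N hN).2.2) hcon ?_
      rw [Pi.add_apply, hκe, zero_add, pw, if_pos rfl]
    obtain ⟨w, hwe, hw⟩ := hex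
    have hwN : w ∉ N := by
      intro h0
      apply hw
      have h1 : κ w ≠ 0 := (mem_sup.1 (hNsub h0)).2
      have h2 : κ w = D w := (hKD.2.1 w hwe).resolve_left h1
      rw [Pi.add_apply, h2, pw, if_neg hwe, if_pos h0, add_self_K]
    have hκw : κ w ≠ 0 := by
      intro h0
      apply hw
      rw [Pi.add_apply, h0, zero_add, pw, if_neg hwe, if_neg hwN]
    obtain ⟨N', hN', hwN'⟩ := hP.cover w hwe
    have hN'N : N' ≠ N := fun h0 => hwN (h0 ▸ hwN')
    have hN'M0 : N' ≠ M0 := fun h0 => hκw (hM00 w (h0 ▸ hwN'))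
    have hN'sub : N' ⊆ H26.TR.sup e κ := by
      rcases hP.union κ hKD N' hN' with h8 | h8
      · exact h8
      · exact absurd (mem_sup.2 ⟨hwe, hκw⟩) (Finset.disjoint_left.1 h8 hwN')
    obtain ⟨w', hw', hw'b⟩ := other_elt iso one letter hP hN' b
    have h9 : κ w' ≠ 0 := (mem_sup.1 (hN'sub hw')).2
    have hw'e : w' ≠ e := (mem_sup.1 (hN'sub hw')).1
    have hw'M0 : w' ∉ M0 := Finset.disjoint_left.1 (hP.disj N' hN' M0 hM0 hN'M0) hw'
    have hw'N : w' ∉ N := Finset.disjoint_left.1 (hP.disj N' hN' N hN hN'N) hw'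
    apply h9
    by_cases hwY : w' ∈ Y
    · rw [k4 w' hwY, pw, if_neg hw'e, if_neg hw'N]
    · exact k5 w' hwY (fun h0 => hw'M0 (h0 ▸ hg)) (fun h0 => hw'M0 (h0 ▸ hl)) hw'b
  -- step 2
  by_cases hY0 : Y = ∅
  · rw [← hY0]; exact hY
  exfalso
  obtain ⟨v, hv⟩ := Finset.nonempty_iff_ne_empty.2 hY0
  obtain ⟨hve, hvg, hvl, hvb⟩ := hYne v hv
  have hvM0 := step1 v hv
  obtain ⟨y1, y2, y3, y4, y5⟩ := hy v hvM0
  have yb := y4 b hbM0 hbe
  have hylc := iso _ y1 _ hc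
  have kb : kf (y v b) (c b) = 0 := by
    rw [hcb]
    rcases yb with h0 | h0
    · rw [h0, kf_zero_left]
    · rw [h0, kf_self]
  rw [form_three _ _ g l b hgl hgb hlb (by
    intro w h1 h2 h3
    rw [hc0 w h1 h2 h3]
    simp [kf]), kb, hcg, kf_z_right, y3 g hg (Ne.symm hvg), zero_add, add_zero] at hylc
  have yl0 : y v l = 0 := by
    have h1 := y3 l hl (Ne.symm hvl)
    unfold kf at hylc
    rw [h1, hcl, zero_mul, zero_add, mul_one] at hylc
    exact Prod.ext h1 hylc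
  obtain ⟨κ, hκL, k1, k2, k3, k4, k5⟩ := key (y v) y1 (z_or_zero (y3 g hg (Ne.symm hvg))) yl0 yb
  have hκe : κ e = 0 := k5 e heY hge.symm hle.symm hbe.symm
  have hκv : (κ v).1 = 1 := by rw [k4 v hv]; exact y2
  have hκM0 : ∀ w ∈ M0, w ≠ v → (κ w).1 = 0 := by
    intro w hw hwv
    by_cases hwg : w = g
    · rw [hwg]
      rcases k2 with k2 | k2 <;> rw [k2] <;> rfl
    by_cases hwl : w = l
    · rw [hwl, k1]; rfl
    have hwb : w ≠ b := fun h0 => hbM0 (h0 ▸ hw)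
    by_cases hwY : w ∈ Y
    · rw [k4 w hwY]; exact y3 w hw hwv
    · rw [k5 w hwY hwg hwl hwb]; rfl
  have hκoff : ∀ w, w ∉ M0 → w ≠ b → κ w = 0 := by
    intro w hw hwb
    exact k5 w (fun h0 => hw (step1 w h0)) (fun h0 => hw (h0 ▸ hg)) (fun h0 => hw (h0 ▸ hl)) hwb
  have hκb : κ b = D b := by
    have h1 := iso _ hκL _ one
    rw [form_two _ _ v b hvb (by
      intro w h2 h3
      rw [kf_z_right]
      by_cases hw : w ∈ M0
      · exact hκM0 w hw h2
      · rw [hκoff w hw h3]; rfl), kf_z_right, kf_z_right, hκv] at h1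
    rcases k3 with h2 | h2
    · rw [h2] at h1
      exact absurd h1 (by decide)
    · exact h2
  -- the root word
  have r1 := iso _ hr _ hκL
  rw [form_two _ _ v b hvb (by
    intro w h2 h3
    by_cases hw : w ∈ M0
    · unfold kf
      rw [hr0 w hw, hκM0 w hw h2]; ring
    · rw [hκoff w hw h3]
      simp [kf])] at r1
  have r2 := iso _ hr _ hc
  rw [form_three _ _ g l b hgl hgb hlb (by
    intro w h1 h2 h3
    rw [hc0 w h1 h2 h3]
    simp [kf]), hcg, kf_z_right, hr0 g hg, zero_add] at r2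
  have hpe : pw D e M1 e = z := by rw [pw, if_pos rfl]
  have hpb : pw D e M1 b = D b := by rw [pw, if_neg hbe, if_pos hb]
  have r3 := iso _ hr _ (hP.mem M1 hM1).2.2
  rw [form_two _ _ e b hbe.symm (by
    intro w h2 h3
    by_cases hw : w ∈ M1
    · rw [pw, if_neg h2, if_pos hw]
      exact hrM w hw h3
    · rw [pw, if_neg h2, if_neg hw]
      simp [kf]), hpe, hpb, kf_z_right, hre] at r3
  have hkb : kf (r b) (D b) = 1 := by
    revert r3
    generalize kf (r b) (D b) = q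
    revert q; decide
  rw [hκb, hkb] at r1
  rw [hcb, hkb] at r2
  have hrv : r v = z := by
    have h1 : kf (r v) (κ v) = (r v).2 := by
      unfold kf
      rw [hr0 v hvM0, hκv]; ring
    rw [h1] at r1
    have h2 : (r v).2 = 1 := by
      revert r1
      generalize (r v).2 = q
      revert q; decide
    exact Prod.ext (hr0 v hvM0) h2
  have hrl : r l = z := by
    have h1 : kf (r l) (c l) = (r l).2 := by
      unfold kf
      rw [hr0 l hl, hcl]; ring
    rw [h1] at r2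
    have h2 : (r l).2 = 1 := by
      revert r2
      generalize (r l).2 = q
      revert q; decide
    exact Prod.ext (hr0 l hl) h2
  exact hvl (((hra v hvM0).1 hrv).trans ((hra l hl).1 hrl).symm)

/-- **conclusion**: a word of weight three with a side without own vertices -/
theorem own_free (hS : Sides L S) (iso : ∀ u ∈ L, ∀ w ∈ L, form u w = 0)
    (one : (fun _ => z) ∈ L) (noz : ∀ u ∈ L, (∀ v, v ≠ e → u v = 0) → u e ≠ z)
    (letter : ∀ v, v ≠ e → (D v).1 = 1) (hP : IsParts L e D P) (hM0 : M0 ∈ P)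
    (hmax : ∀ M ∈ P, M.card ≤ M0.card)
    (hgz : ∀ u ∈ L, (∀ v, v ∉ M0 → v ≠ e → u v = 0 ∨ u v = D v) → (u e = 0 ∨ u e = z) →
      (∀ v ∈ M0, (u v).1 = 0) → ∀ v ∈ M0, u v = 0)
    (y : V → V → K)
    (hy : ∀ m ∈ M0, y m ∈ L ∧ (y m m).1 = 1 ∧ (∀ v ∈ M0, v ≠ m → (y m v).1 = 0) ∧
      (∀ v, v ∉ M0 → v ≠ e → y m v = 0 ∨ y m v = D v) ∧ (y m e).1 = 0)
    (leaf : ∃ l ∈ M0, ∃ g ∈ M0, g ≠ l ∧ ∀ v ∈ M0, v ≠ l → (y l v = z ↔ v = g))
    (hr : ∀ h : Finset V → V, (∀ M ∈ P, M ≠ M0 → h M ∈ M) →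
      ∃ r ∈ L, (r e).1 = 1 ∧ (∀ v ∈ M0, (r v).1 = 0) ∧ (∃ a ∈ M0, ∀ v ∈ M0, (r v = z ↔ v = a)) ∧
        ∀ M ∈ P, M ≠ M0 → ∀ v ∈ M, kf (r v) (if v = h M then D v + z else D v) = 0) :
    ∃ g a b : V, ∃ c : V → K, a ≠ b ∧ a ≠ g ∧ b ≠ g ∧ S c ∅ ∧ c g = z ∧ (c a).1 = 1 ∧
      (c b).1 = 1 ∧ ∀ v, v ≠ g → v ≠ a → v ≠ b → c v = 0 := by
  classical
  have H : Data L e D P M0 y :=
    ⟨iso, one, letter, hP.mem, hP.disj, hP.cover, hM0, hmax, hy⟩
  obtain ⟨l, hl, g, hg, hgl, hlg⟩ := leaf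
  rcases two_letter_word' H hl hg hgl hlg hr with ⟨p, q, hpq, hM0pq⟩ | ⟨b, M1, hM1, hb, c, hc, hcg,
    hcl, hcb, hc0⟩
  · -- all parts have two elements
    obtain ⟨M, hM, hSM⟩ := part_side hS noz letter hP ⟨M0, hM0⟩
    have hcard : M.card ≤ 2 := by
      have h1 := hmax M hM
      have h2 : M0.card ≤ 2 := by
        rw [hM0pq]
        exact Finset.card_le_two
      omega
    obtain ⟨a, ha⟩ := Finset.nonempty_iff_ne_empty.2 (hP.mem M hM).1
    obtain ⟨b, hb, hba⟩ := other_elt iso one letter hP hM a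
    have hMab : M = {a, b} := by
      symm
      apply Finset.eq_of_subset_of_card_le
      · intro v hv
        rw [Finset.mem_insert, Finset.mem_singleton] at hv
        rcases hv with rfl | rfl
        · exact ha
        · exact hb
      · rw [Finset.card_pair (Ne.symm hba)]
        exact hcard
    have hae : a ≠ e := fun h0 => (hP.mem M hM).2.1 (h0 ▸ ha)
    have hbe : b ≠ e := fun h0 => (hP.mem M hM).2.1 (h0 ▸ hb)
    refine ⟨e, a, b, pw D e M, Ne.symm hba, hae, hbe, hSM, ?_, ?_, ?_, ?_⟩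
    · rw [pw, if_pos rfl]
    · rw [pw, if_neg hae, if_pos ha]; exact letter a hae
    · rw [pw, if_neg hbe, if_pos hb]; exact letter b hbe
    · intro v h1 h2 h3
      rw [pw, if_neg h1, if_neg]
      rw [hMab, Finset.mem_insert, Finset.mem_singleton]
      rintro (h4 | h4)
      · exact h2 h4
      · exact h3 h4
  · have hM1P := Finset.mem_of_mem_erase hM1
    have hM10 := Finset.ne_of_mem_erase hM1
    -- a transversal through `b`
    obtain ⟨h, hh, hhb⟩ : ∃ h : Finset V → V, (∀ M ∈ P, M ≠ M0 → h M ∈ M) ∧ h M1 = b := by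
      refine ⟨fun M => if M = M1 then b else if hM : M.Nonempty then hM.choose else e, ?_, ?_⟩
      · intro M hM _
        by_cases hMM : M = M1
        · subst hMM
          simpa using hb
        · have hne : M.Nonempty := Finset.nonempty_iff_ne_empty.2 (hP.mem M hM).1
          simp only [if_neg hMM, dif_pos hne]
          exact hne.choose_spec
      · simp
    obtain ⟨r, hrL, hre, hr0, ⟨a, ha, hra⟩, hrM⟩ := hr h hh
    have hbM0 : b ∉ M0 := Finset.disjoint_left.1 (hP.disj M1 hM1P M0 hM0 hM10) hb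
    have hbe : b ≠ e := fun h0 => (hP.mem M1 hM1P).2.1 (h0 ▸ hb)
    have hS' := leaf_side hS iso one noz letter hP hM0 hgz hy hl hg hgl hM1P hM10 hb hc hcg hcl hcb
      hc0 hrL hre hr0 hra (by
        intro v hv hvb
        have := hrM M1 hM1P hM10 v hv
        rwa [hhb, if_neg hvb] at this)
    refine ⟨g, l, b, c, fun h0 => hbM0 (h0 ▸ hl), Ne.symm hgl, fun h0 => hbM0 (h0 ▸ hg), hS', hcg,
      hcl, ?_, hc0⟩
    rw [hcb]
    exact letter b hbe

end Pool.Agent.H95.End
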