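import Pool.Agent.H95.End.Abs
import Pool.Agent.H16.FQ.Adapt
import Pool.Agent.H73.P4.RS2
import Pool.Agent.H55.Q.KD
import Pool.Agent.H7.Q.Glue
import Pool.Agent.H62.Q1.Asm

set_option autoImplicit false

/-!
MP_a46c6f_co: the code statement from the row statement of the rooted codes with sides.
-/

namespace Pool.Agent.H95.End

open Finset Pool.Agent.H98.Code Pool.Agent.H26.TR

/-- **the code statement** from the statement on rooted codes with sides -/
theorem endSide (hB : H7.Q.RowB) : H62.Q1.EndSide := by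
  classical
  intro V _ _ L S hL hz1 hz hS hcard hodd
  have iso : ∀ u ∈ L, ∀ w ∈ L, form u w = 0 := hL.1
  -- the side without `e`
  have side : ∀ e : V, ∀ u ∈ L, u e = 0 → ∃ Y, S u Y ∧ e ∉ Y := by
    intro e u hu hue
    obtain ⟨Y0, hY0⟩ := hS.ex u hu
    by_cases h0 : e ∈ Y0
    · obtain ⟨Y', h1, h2⟩ := hS.compl u Y0 hY0
      exact ⟨Y', h1, fun h3 => ((h2 e).1 h3).2 h0⟩
    · exact ⟨Y0, hY0, h0⟩
  have hwc : ∀ u ∈ L, u ≠ 0 → ZFree u → (∃ e : V, ∀ v, v ≠ e → u v ≠ 0) → ∃ g, Splits L u g := by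
    rintro u hu hu0 hzf ⟨e, he⟩
    have h1 : S u ∅ := by
      by_cases hue : u e = 0
      · obtain ⟨Y, hY, heY⟩ := side e u hu hue
        have : Y = ∅ := by
          rw [Finset.eq_empty_iff_forall_notMem]
          intro v hv
          have h2 := (hS.mem u Y hY).2 v hv
          by_cases hve : v = e
          · exact heY (hve ▸ hv)
          · exact he v hve h2
        rwa [this] at hY
      · obtain ⟨Y, hY⟩ := hS.ex u hu
        have : Y = ∅ := by
          rw [Finset.eq_empty_iff_forall_notMem]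
          intro v hv
          have h2 := (hS.mem u Y hY).2 v hv
          by_cases hve : v = e
          · exact hue (hve ▸ h2)
          · exact he v hve h2
        rwa [this] at hY
    exact hS.wc u h1 hzf hu0
  have hcov : ∀ (e : V) (D' : V → K), (∀ v, v ≠ e → (D' v).1 = 1) →
      (∀ v, v ≠ e → ∃ u, KD L D' e u ∧ u v ≠ 0) →
      ∀ u, KD L D' e u → u ≠ 0 → u e = 0 → ∃ g, Splits L u g := by
    intro e D' hl hc
    refine H55.Q.split_of_sides iso hl hc (fun u Y => S u Y ∧ e ∉ Y) (fun u Y h => h.2)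
      (fun u Y h => (hS.mem u Y h.1).2) (fun u hu _ hue => side e u hu hue) ?_
      (fun u _ hu0 hzf _ h => hS.wc u h.1 hzf hu0)
    rintro u Y ⟨h1, h2⟩ _ k hk hle
    obtain ⟨k', hk', e1, e2, e3, ⟨Y', hY', e4⟩, -⟩ := hS.part u Y h1 k hk hle
    exact ⟨k', hk', e1, e2, e3, fun _ => ⟨Y', hY', e4, fun h3 => h2 (hY' h3)⟩⟩
  have main := H16.FQ.adapt (C := ∃ g a b : V, ∃ c : V → K, a ≠ b ∧ a ≠ g ∧ b ≠ g ∧ S c ∅ ∧
      c g = z ∧ (c a).1 = 1 ∧ (c b).1 = 1 ∧ ∀ v, v ≠ g → v ≠ a → v ≠ b → c v = 0)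
    hL hz1 hz (by omega) hwc hcov ?_ ?_
  · obtain ⟨g, a, b, c, -, -, -, h1, h2, h3, -, h4⟩ := main
    exact ⟨c, g, a, b, h1, h2, h3, h4⟩
  · intro e D P M0 t h _ _ hP _ _ ht hc hnz
    have hparts := H16.FQ.toParts hP
    have hQ : P.erase M0 ⊆ P := Finset.erase_subset _ _
    have heW : ∀ M ∈ P.erase M0, e ∉ M := fun M hM => (hP.mem M (hQ hM)).2.1
    exact H7.Q.isTree_of_rsides hB hc hnz
      (H73.P4.rsides' hL hparts hQ h.letter ht heW hS)
  · intro e D P M0 h _ _ hP hM0 hmax _ hgz y hy leaf hr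
    exact own_free (sides_of hS) iso hz1 h.noz h.letter hP hM0 hmax hgz y hy leaf hr

end Pool.Agent.H95.End
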