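import Pool.Agent.H95.End.Leaf
import Pool.Agent.H31.Q.Defs

set_option autoImplicit false

/-!
MP_a46c6f_co: the sides of H31.Q.Defs give the sides of H95.End.Side.
-/

namespace Pool.Agent.H95.End

open Finset Pool.Agent.H98.Code Pool.Agent.H26.TR

variable {V : Type} [Fintype V] [DecidableEq V]
variable {L : Submodule (ZMod 2) (V → K)} {S : (V → K) → Finset V → Prop}

omit [Fintype V] [DecidableEq V] in
theorem sides_of (hS : H31.Q.Sides L S) : Sides L S := by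
  refine ⟨fun u Y h => (hS.mem u Y h).1, fun u Y h => (hS.mem u Y h).2, hS.ex, ?_, ?_⟩
  · intro u Y h
    obtain ⟨Y', h1, h2⟩ := hS.compl u Y h
    exact ⟨Y', h1, fun v hv => ⟨fun h3 => ((h2 v).1 h3).2, fun h3 => (h2 v).2 ⟨hv, h3⟩⟩⟩
  · intro u Y h u' hu' hle
    obtain ⟨k, _, h1, h2, h3, ⟨Y1, h4, h5⟩, Y2, h6, h7⟩ := hS.part u Y h u' hu' hle
    exact ⟨k, Y1, Y2, h5, by rw [add_comm]; exact h7, h4, h6, h1, h2, h3⟩

end Pool.Agent.H95.End
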