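import Pool.Agent.H74.CT.Count

set_option autoImplicit false

/-!
The counting step of MP_a46c6f_co with the structure of the word.
-/

namespace Pool.Agent.H95.End

open Finset Pool.Agent.H98.Code Pool.Agent.H26.TR Pool.Agent.H74.CT

variable {V : Type} [Fintype V] [DecidableEq V]
variable {L : Submodule (ZMod 2) (V → K)} {e : V} {D : V → K} {P : Finset (Finset V)}
  {M0 : Finset V} {y : V → V → K}

/-- the counting step, with the structure of the word -/
theorem two_letter_word' (H : Data L e D P M0 y)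
    {l g : V} (hl : l ∈ M0) (hg : g ∈ M0) (hgl : g ≠ l)
    (hlg : ∀ v ∈ M0, v ≠ l → (y l v = z ↔ v = g))
    (hr : ∀ h : Finset V → V, (∀ M ∈ P, M ≠ M0 → h M ∈ M) →
      ∃ r ∈ L, (r e).1 = 1 ∧ (∀ v ∈ M0, (r v).1 = 0) ∧ (∃ a ∈ M0, ∀ v ∈ M0, (r v = z ↔ v = a)) ∧
        ∀ M ∈ P, M ≠ M0 → ∀ v ∈ M, kf (r v) (if v = h M then D v + z else D v) = 0) :
    (∃ p q : V, p ≠ q ∧ M0 = {p, q}) ∨
      ∃ b : V, ∃ M1 ∈ P.erase M0, b ∈ M1 ∧ ∃ c ∈ L, c g = z ∧ (c l).1 = 1 ∧ c b = D b ∧
        ∀ v, v ≠ g → v ≠ l → v ≠ b → c v = 0 := by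
  classical
  have ex : ∀ h : Finset V → V, (∀ M ∈ P.erase M0, h M ∈ M) → ∃ a ∈ M0, ∀ m ∈ M0,
      (y m e).2 + ∑ M ∈ P.erase M0, (y m (h M)).1 = if m = a then 1 else 0 := by
    intro h hh
    obtain ⟨r, h1, h2, h3, ⟨a, h4, h5⟩, h6⟩ := hr h
      (fun M hM hne => hh M (Finset.mem_erase.2 ⟨hne, hM⟩))
    exact ⟨a, h4, fun m hm => H.pair h hh r h1 h2 h3 a h5
      (fun M hM v hv => h6 M (Finset.mem_of_mem_erase hM) (Finset.ne_of_mem_erase hM) v hv) m hm⟩
  obtain ⟨A, hE⟩ : ∃ A : (Finset V → V) → V, ∀ h : Finset V → V, (∀ M ∈ P.erase M0, h M ∈ M) →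
      A h ∈ M0 ∧ ∀ m ∈ M0, (fun m => (y m e).2) m + ∑ M ∈ P.erase M0, (fun m v => (y m v).1) m (h M)
        = if m = A h then 1 else 0 := by
    have ex' : ∀ h : Finset V → V, ∃ a : V, (∀ M ∈ P.erase M0, h M ∈ M) → a ∈ M0 ∧ ∀ m ∈ M0,
        (y m e).2 + ∑ M ∈ P.erase M0, (y m (h M)).1 = if m = a then 1 else 0 := by
      intro h
      by_cases hh : ∀ M ∈ P.erase M0, h M ∈ M
      · obtain ⟨a, h1, h2⟩ := ex h hh
        exact ⟨a, fun _ => ⟨h1, h2⟩⟩
      · exact ⟨e, fun h1 => absurd h1 hh⟩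
    choose A hA using ex'
    exact ⟨A, hA⟩
  obtain ⟨h0, hh0⟩ : ∃ h0 : Finset V → V, ∀ M ∈ P.erase M0, h0 M ∈ M := by
    refine ⟨fun M => if hM : M.Nonempty then hM.choose else e, ?_⟩
    intro M hM
    have h1 : M.Nonempty := Finset.nonempty_iff_ne_empty.2 (H.part M (Finset.mem_of_mem_erase hM)).1
    dsimp only
    rw [dif_pos h1]
    exact h1.choose_spec
  by_cases hA : ∃ M ∈ P.erase M0, ∃ M' ∈ P.erase M0, M ≠ M' ∧
      (∃ s ∈ M, ∃ s' ∈ M, ∃ m ∈ M0, (y m s).1 + (y m s').1 = 1) ∧
      (∃ t ∈ M', ∃ t' ∈ M', ∃ m ∈ M0, (y m t).1 + (y m t').1 = 1)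
  · obtain ⟨M, hM, M', hM', hne, ⟨s, hs, s', hs', m1, hm1, e1⟩, ⟨t, ht, t', ht', m2, hm2, e2⟩⟩ := hA
    obtain ⟨k1, p, hp, q, hq, hpq, k2⟩ := two_parts (P.erase M0) M0 (fun m => (y m e).2)
      (fun m v => (y m v).1) A hE h0 hh0 M M' hM hM' hne s s' t t' hs hs' ht ht'
      ⟨m1, hm1, e1⟩ ⟨m2, hm2, e2⟩
    have all : ∀ m ∈ M0, m = p ∨ m = q := by
      intro m hm
      have h1 : (y m s).1 + (y m s').1 = 1 := by
        obtain ⟨N, hN, n, hn, n', hn', e3⟩ := H.active hm
        by_cases hNM : N = M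
        · have hNM' : M' ≠ N := by
            rw [hNM]
            exact Ne.symm hne
          obtain ⟨k3, -⟩ := two_parts (P.erase M0) M0 (fun m => (y m e).2)
            (fun m v => (y m v).1) A hE h0 hh0 M' N hM' hN hNM' t t' n n' ht ht' hn hn'
            ⟨m2, hm2, e2⟩ ⟨m, hm, e3⟩
          have k4 := k1 m hm
          have k5 := k3 m hm
          rw [k4, k5, e3]
        · obtain ⟨k3, -⟩ := two_parts (P.erase M0) M0 (fun m => (y m e).2)
            (fun m v => (y m v).1) A hE h0 hh0 M N hM hN (Ne.symm hNM) s s' n n' hs hs' hn hn'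
            ⟨m1, hm1, e1⟩ ⟨m, hm, e3⟩
          have k5 := k3 m hm
          rw [k5, e3]
      have h2 := k2 m hm
      rw [h1] at h2
      by_contra hcon
      push Not at hcon
      rw [if_neg hcon.1, if_neg hcon.2] at h2
      exact absurd h2 (by decide)
    refine Or.inl ⟨p, q, hpq, ?_⟩
    ext v
    rw [Finset.mem_insert, Finset.mem_singleton]
    constructor
    · exact all v
    · rintro (rfl | rfl)
      · exact hp
      · exact hq
  · obtain ⟨M1, hM1, s1, hs1, t1, ht1, e1⟩ := H.active hl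
    have hM1P := Finset.mem_of_mem_erase hM1
    have hM10 := Finset.ne_of_mem_erase hM1
    have const : ∀ N ∈ P.erase M0, N ≠ M1 → ∀ m ∈ M0, ∀ n ∈ N, ∀ n' ∈ N,
        (y m n).1 = (y m n').1 := by
      intro N hN hNM m hm n hn n' hn'
      by_contra hne
      apply hA
      refine ⟨N, hN, M1, hM1, hNM, ⟨n, hn, n', hn', m, hm, ?_⟩, ⟨s1, hs1, t1, ht1, l, hl, e1⟩⟩
      rcases z2_cases (y m n).1 with ha | ha <;> rcases z2_cases (y m n').1 with hb | hb <;>
        rw [ha, hb] at hne ⊢ <;> first | exact absurd rfl hne | decide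
    set α : V → V := fun v => A (Function.update h0 M1 v) with hα
    set κ : V → ZMod 2 := fun m => (y m e).2 + ∑ N ∈ (P.erase M0).erase M1, (y m (h0 N)).1 with hκ
    have hup : ∀ v ∈ M1, ∀ N ∈ P.erase M0, Function.update h0 M1 v N ∈ N := by
      intro v hv N hN
      by_cases hNM : N = M1
      · subst hNM
        rw [Function.update_self]
        exact hv
      · rw [Function.update_of_ne hNM]
        exact hh0 N hN
    have hαm : ∀ v ∈ M1, α v ∈ M0 := fun v hv => (hE _ (hup v hv)).1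
    have hρ : ∀ m ∈ M0, ∀ v ∈ M1, (y m v).1 = κ m + if m = α v then 1 else 0 := by
      intro m hm v hv
      have h1 := (hE _ (hup v hv)).2 m hm
      dsimp only at h1
      rw [← Finset.add_sum_erase _ _ hM1, Function.update_self] at h1
      have h2 : ∑ x ∈ (P.erase M0).erase M1, (y m (Function.update h0 M1 v x)).1 =
          ∑ x ∈ (P.erase M0).erase M1, (y m (h0 x)).1 := by
        refine Finset.sum_congr rfl fun N hN => ?_
        rw [Function.update_of_ne (Finset.ne_of_mem_erase hN)]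
      rw [h2] at h1
      have h3 : (if m = α v then (1 : ZMod 2) else 0) = κ m + (y m v).1 := by
        rw [hα, hκ]
        dsimp only
        rw [← h1]
        ring
      rw [h3, ← add_assoc, z2_self, zero_add]
    have hsurj : ∀ m ∈ M0, ∃ v ∈ M1, α v = m := by
      intro m hm
      by_contra hcon
      push Not at hcon
      have h1 := H.odd hm
      have h2 : ∑ M ∈ P.erase M0, ∑ v ∈ M, (y m v).1 = 0 := by
        refine Finset.sum_eq_zero fun N hN => ?_
        have hNP := Finset.mem_of_mem_erase hN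
        by_cases hNM : N = M1
        · subst hNM
          have h3 : ∑ v ∈ N, (y m v).1 = ∑ _v ∈ N, κ m := by
            refine Finset.sum_congr rfl fun v hv => ?_
            rw [hρ m hm v hv, if_neg (Ne.symm (hcon v hv)), add_zero]
          rw [h3, Finset.sum_const, nsmul_eq_mul, H.even hNP, zero_mul]
        · have h3 : ∑ v ∈ N, (y m v).1 = ∑ _v ∈ N, (y m (h0 N)).1 := by
            refine Finset.sum_congr rfl fun v hv => ?_
            exact const N hN hNM m hm v hv (h0 N) (hh0 N hN)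
          rw [h3, Finset.sum_const, nsmul_eq_mul, H.even hNP, zero_mul]
      rw [h1] at h2
      exact absurd h2 (by decide)
    have hinj : Set.InjOn α (M1 : Set V) := by
      refine Finset.injOn_of_surjOn_of_card_le (s := M1) (t := M0) α ?_ ?_ (H.big M1 hM1P)
      · intro v hv
        exact hαm v hv
      · intro m hm
        obtain ⟨v, hv, e2⟩ := hsurj m hm
        exact ⟨v, hv, e2⟩
    obtain ⟨b, hb, hbl⟩ := hsurj l hl
    obtain ⟨r1, r2, r3, r4, r5⟩ := H.row l hl
    set σ : Finset V → ZMod 2 := fun N => if N = M1 then κ l else (y l (h0 N)).1 with hσ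
    have hcL : y l + ∑ N ∈ P.erase M0, σ N • pw D e N ∈ L := by
      refine L.add_mem r1 (L.sum_mem fun N hN => L.smul_mem _ ?_)
      exact (H.part N (Finset.mem_of_mem_erase hN)).2.2
    have val0 : ∀ v ∈ M0, (y l + ∑ N ∈ P.erase M0, σ N • pw D e N) v = y l v := by
      intro v hv
      rw [Pi.add_apply, Finset.sum_apply]
      have h1 : ∑ N ∈ P.erase M0, (σ N • pw D e N) v = 0 := by
        refine Finset.sum_eq_zero fun N hN => ?_
        have h2 : v ∉ N := H.notMem H.M0mem (Finset.mem_of_mem_erase hN)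
          (Ne.symm (Finset.ne_of_mem_erase hN)) hv
        rw [Pi.smul_apply, pw, if_neg (H.ne_e H.M0mem hv), if_neg h2, smul_zero]
      rw [h1, add_zero]
    have valN : ∀ N ∈ P.erase M0, ∀ v ∈ N,
        (y l + ∑ N ∈ P.erase M0, σ N • pw D e N) v = y l v + σ N • D v := by
      intro N hN v hv
      have hNP := Finset.mem_of_mem_erase hN
      rw [Pi.add_apply, Finset.sum_apply]
      congr 1
      rw [Finset.sum_eq_single N]
      · rw [Pi.smul_apply, pw, if_neg (H.ne_e hNP hv), if_pos hv]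
      · intro N' hN' hne
        have h2 : v ∉ N' := H.notMem hNP (Finset.mem_of_mem_erase hN') (Ne.symm hne) hv
        rw [Pi.smul_apply, pw, if_neg (H.ne_e hNP hv), if_neg h2, smul_zero]
      · intro h2
        exact absurd hN h2
    have vale : (y l + ∑ N ∈ P.erase M0, σ N • pw D e N) e = 0 := by
      rw [Pi.add_apply, Finset.sum_apply]
      have h1 : ∑ N ∈ P.erase M0, (σ N • pw D e N) e = (∑ N ∈ P.erase M0, σ N) • z := by
        rw [Finset.sum_smul]
        refine Finset.sum_congr rfl fun N _ => ?_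
        rw [Pi.smul_apply, pw, if_pos rfl]
      have h2 : ∑ N ∈ P.erase M0, σ N = κ l + ∑ N ∈ (P.erase M0).erase M1, (y l (h0 N)).1 := by
        rw [← Finset.add_sum_erase _ _ hM1]
        congr 1
        · rw [hσ]
          dsimp only
          rw [if_pos rfl]
        · refine Finset.sum_congr rfl fun N hN => ?_
          rw [hσ]
          dsimp only
          rw [if_neg (Finset.ne_of_mem_erase hN)]
      have h3 : ∑ N ∈ P.erase M0, σ N = (y l e).2 := by
        rw [h2, hκ]
        dsimp only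
        rw [add_assoc, z2_self, add_zero]
      rw [h1, h3]
      apply Prod.ext
      · rw [Prod.fst_add, r5]
        simp [z]
      · rw [Prod.snd_add]
        have h4 := z2_self (y l e).2
        simpa [z] using h4
    have zero_of : ∀ v, v ≠ e → (y l v = 0 ∨ y l v = D v) → ∀ s : ZMod 2, (y l v).1 = s →
        y l v + s • D v = 0 := by
      intro v hv h1 s h2
      rcases z2_cases s with h3 | h3
      · rw [h3] at h2
        rw [k_zero_of_fst (H.letter v hv) h1 h2, h3, zero_smul, add_zero]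
      · rw [h3] at h2
        rw [k_eq_of_fst h1 h2, h3, one_smul, k_add_self]
    have hlM1 : l ∉ M1 := H.notMem H.M0mem hM1P (Ne.symm hM10) hl
    have hgM1 : g ∉ M1 := H.notMem H.M0mem hM1P (Ne.symm hM10) hg
    refine Or.inr ⟨b, M1, hM1, hb, _, hcL, ?_, ?_, ?_, ?_⟩
    · rw [val0 g hg]
      exact (hlg g hg hgl).2 rfl
    · rw [val0 l hl]
      exact r2
    · rw [valN M1 hM1 b hb, hσ]
      dsimp only
      rw [if_pos rfl]
      have h0 := r4 b (H.notMem hM1P H.M0mem hM10 hb) (H.ne_e hM1P hb)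
      have h1 := hρ l hl b hb
      rw [if_pos hbl.symm] at h1
      rcases z2_cases (κ l) with h2 | h2
      · rw [h2, zero_add] at h1
        rw [k_eq_of_fst h0 h1, h2, zero_smul, add_zero]
      · rw [h2] at h1
        have h3 : (y l b).1 = 0 := by rw [h1]; decide
        rw [k_zero_of_fst (H.letter b (H.ne_e hM1P hb)) h0 h3, h2, one_smul, zero_add]
    · intro v hvg hvl hvb
      by_cases hve : v = e
      · rw [hve]
        exact vale
      obtain ⟨N, hNP, hvN⟩ := H.cov v hve
      by_cases hN0 : N = M0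
      · subst hN0
        rw [val0 v hvN]
        have h1 := r3 v hvN hvl
        have h2 : y l v ≠ z := fun h3 => hvg ((hlg v hvN hvl).1 h3)
        rcases z2_cases (y l v).2 with h3 | h3
        · exact Prod.ext h1 h3
        · exact absurd (Prod.ext h1 h3) h2
      · have hN : N ∈ P.erase M0 := Finset.mem_erase.2 ⟨hN0, hNP⟩
        rw [valN N hN v hvN]
        apply zero_of v hve (r4 v (H.notMem hNP H.M0mem hN0 hvN) hve)
        by_cases hNM : N = M1
        · subst hNM
          rw [hρ l hl v hvN, hσ]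
          dsimp only
          rw [if_pos rfl, if_neg, add_zero]
          intro h1
          apply hvb
          exact hinj hvN hb (by rw [hbl, ← h1])
        · rw [hσ]
          dsimp only
          rw [if_neg hNM]
          exact const N hN hNM l hl v hvN (h0 N) (hh0 N hN)


end Pool.Agent.H95.End
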