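import Pool.Agent.H95.End.Plug
import Pool.Agent.H81.Q.Tree

set_option autoImplicit false

/-!
MP_a46c6f_co, full Q1: the rows put together.
-/

namespace Pool.Agent.H95.End

open SimpleGraph Pool.Agent.H5.Goddyn Pool.Agent.H98.TC Pool.Agent.H64.Pent

theorem rowB : H7.Q.RowB := by
  intro X _ _ B e S H _ hH hS
  exact H81.Q.exists_matrix_of_sides hH hS

theorem petersen {V : Type*} [Finite V] (G : SimpleGraph V) (M C₁ C₂ : G.Subgraph)
    (h : IsPermutationGraph G M C₁ C₂) (hcrit : IsCriticalContraPair G (wt M)) :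
    IsPetersenPair G M :=
  H62.Q1.main_of (endSide rowB) G M C₁ C₂ h hcrit

end Pool.Agent.H95.End
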