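import Pool.Agent.H95.End.Count2
import Pool.Agent.H26.TR.Pair

set_option autoImplicit false

/-!
MP_a46c6f_co: a word of weight three with a side without own edges, from the counting step.
-/

namespace Pool.Agent.H95.End

open Finset Pool.Agent.H98.Code Pool.Agent.H26.TR Pool.Agent.H74.CT

variable {V : Type} [Fintype V] [DecidableEq V]

/-- the sides of the words of a code: `S u Y` says that `u` is the word of a side whose own vertices
are the elements of `Y` -/
structure Sides (L : Submodule (ZMod 2) (V → K)) (S : (V → K) → Finset V → Prop) : Prop where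
  mem : ∀ u Y, S u Y → u ∈ L
  own : ∀ u Y, S u Y → ∀ v ∈ Y, u v = 0
  ex : ∀ u ∈ L, ∃ Y, S u Y
  compl : ∀ u Y, S u Y → ∃ Y', S u Y' ∧ ∀ v, u v = 0 → (v ∈ Y' ↔ v ∉ Y)
  part : ∀ u Y, S u Y → ∀ u' ∈ L, (∀ v, u v ≠ 0 → u' v = 0 ∨ u' v = u v) →
    ∃ κ Y₁ Y₂, S κ Y₁ ∧ S (u + κ) Y₂ ∧ Y₁ ⊆ Y ∧ Y₂ ⊆ Y ∧ (∀ v ∈ Y, κ v = u' v) ∧
      (∀ v, u v = 0 → v ∉ Y → κ v = 0) ∧ (∀ v, u v ≠ 0 → κ v = 0 ∨ κ v = u v)

variable {L : Submodule (ZMod 2) (V → K)} {S : (V → K) → Finset V → Prop}
  {e : V} {D : V → K} {P : Finset (Finset V)} {M0 : Finset V}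

theorem add_self_K (a : K) : a + a = 0 := by
  revert a; decide

theorem ne_zero_of_fst {a : K} (h : a.1 = 1) : a ≠ 0 := by
  intro h0
  rw [h0] at h
  exact absurd h (by decide)

theorem z_ne_zero : (z : K) ≠ 0 := by decide

/-- **case 1**: some part word has a side without own vertices -/
theorem part_side (hS : Sides L S) (noz : ∀ u ∈ L, (∀ v, v ≠ e → u v = 0) → u e ≠ z)
    (letter : ∀ v, v ≠ e → (D v).1 = 1) (hP : IsParts L e D P) (hne : P.Nonempty) :
    ∃ M ∈ P, S (pw D e M) ∅ := by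
  classical
  -- a pair with the smallest own set
  have hex : ∃ n : ℕ, ∃ M ∈ P, ∃ Y, S (pw D e M) Y ∧ Y.card = n := by
    obtain ⟨M, hM⟩ := hne
    obtain ⟨Y, hY⟩ := hS.ex _ (hP.mem M hM).2.2
    exact ⟨Y.card, M, hM, Y, hY, rfl⟩
  obtain ⟨M, hM, Y, hY, hn⟩ := Nat.find_spec hex
  have hmin : ∀ M' ∈ P, ∀ Y', S (pw D e M') Y' → Y.card ≤ Y'.card := by
    intro M' hM' Y' hY'
    rw [hn]
    exact Nat.find_min' hex ⟨M', hM', Y', hY', rfl⟩
  refine ⟨M, hM, ?_⟩
  by_cases hY0 : Y = ∅
  · rw [← hY0]; exact hY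
  exfalso
  obtain ⟨v, hv⟩ := Finset.nonempty_iff_ne_empty.2 hY0
  have hv0 := hS.own _ _ hY v hv
  have hve : v ≠ e := by
    intro h0
    rw [h0, pw, if_pos rfl] at hv0
    exact z_ne_zero hv0
  have hvM : v ∉ M := by
    intro h0
    rw [pw, if_neg hve, if_pos h0] at hv0
    exact ne_zero_of_fst (letter v hve) hv0
  obtain ⟨N, hN, hvN⟩ := hP.cover v hve
  have hNM : N ≠ M := fun h0 => hvM (h0 ▸ hvN)
  have hMN : ∀ w ∈ M, w ∉ N := fun w hw hw' =>
    Finset.disjoint_left.1 (hP.disj N hN M hM hNM) hw' hw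
  have hle : ∀ w, pw D e M w ≠ 0 → pw D e N w = 0 ∨ pw D e N w = pw D e M w := by
    intro w hw
    by_cases hwe : w = e
    · right
      rw [hwe, pw, pw, if_pos rfl, if_pos rfl]
    · left
      have hwM : w ∈ M := by
        by_contra h0
        rw [pw, if_neg hwe, if_neg h0] at hw
        exact hw rfl
      rw [pw, if_neg hwe, if_neg (hMN w hwM)]
  obtain ⟨κ, Y₁, Y₂, h1, h2, h3, h4, h5, h6, h7⟩ := hS.part _ _ hY _ (hP.mem N hN).2.2 hle
  have hκL := hS.mem _ _ h1
  have hκv : κ v = D v := by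
    rw [h5 v hv, pw, if_neg hve, if_pos hvN]
  -- `κ` is canonical
  have hκ0 : ∀ w, w ≠ e → w ∉ M → w ∉ N → κ w = 0 := by
    intro w hwe hwM hwN
    have hu : pw D e M w = 0 := by rw [pw, if_neg hwe, if_neg hwM]
    by_cases hwY : w ∈ Y
    · rw [h5 w hwY, pw, if_neg hwe, if_neg hwN]
    · exact h6 w hu hwY
  have hκe : κ e = 0 ∨ κ e = z := by
    have := h7 e (by rw [pw, if_pos rfl]; exact z_ne_zero)
    rwa [pw, if_pos rfl] at this
  have hκM : ∀ w ∈ M, κ w = 0 ∨ κ w = D w := by
    intro w hw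
    have hwe : w ≠ e := fun h0 => (hP.mem M hM).2.1 (h0 ▸ hw)
    have := h7 w (by rw [pw, if_neg hwe, if_pos hw]; exact ne_zero_of_fst (letter w hwe))
    rwa [pw, if_neg hwe, if_pos hw] at this
  have hκN : ∀ w ∈ N, κ w = 0 ∨ κ w = D w := by
    intro w hw
    have hwe : w ≠ e := fun h0 => (hP.mem N hN).2.1 (h0 ▸ hw)
    have hwM : w ∉ M := fun h0 => hMN w h0 hw
    have hu : pw D e M w = 0 := by rw [pw, if_neg hwe, if_neg hwM]
    by_cases hwY : w ∈ Y
    · right
      rw [h5 w hwY, pw, if_neg hwe, if_pos hw]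
    · exact Or.inl (h6 w hu hwY)
  have hKD : KD L D e κ := by
    refine ⟨hκL, ?_, hκe⟩
    intro w hwe
    by_cases hwM : w ∈ M
    · exact hκM w hwM
    · by_cases hwN : w ∈ N
      · exact hκN w hwN
      · exact Or.inl (hκ0 w hwe hwM hwN)
  have hNall : ∀ w ∈ N, κ w = D w := by
    intro w hw
    have hwe : w ≠ e := fun h0 => (hP.mem N hN).2.1 (h0 ▸ hw)
    rcases hP.union κ hKD N hN with h8 | h8
    · have := (mem_sup.1 (h8 hw)).2
      exact (hκN w hw).resolve_left this
    · exfalso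
      refine Finset.disjoint_left.1 h8 hvN (mem_sup.2 ⟨hve, ?_⟩)
      rw [hκv]
      exact ne_zero_of_fst (letter v hve)
  have zero_of : ∀ u ∈ L, (∀ w, w ≠ e → u w = 0) → (u e = 0 ∨ u e = z) → u = 0 := by
    intro u hu h8 h9
    funext w
    by_cases hwe : w = e
    · rw [hwe]
      exact h9.resolve_right (noz u hu h8)
    · exact h8 w hwe
  rcases hP.union κ hKD M hM with h8 | h8
  · -- `κ` is the sum of the two part words
    have hMall : ∀ w ∈ M, κ w = D w := by
      intro w hw
      exact (hκM w hw).resolve_left (mem_sup.1 (h8 hw)).2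
    have hsum : pw D e M + κ = pw D e N := by
      have h9 : pw D e M + κ + pw D e N = 0 := by
        apply zero_of
        · exact L.add_mem (L.add_mem (hP.mem M hM).2.2 hκL) (hP.mem N hN).2.2
        · intro w hwe
          rw [Pi.add_apply, Pi.add_apply]
          unfold pw
          rw [if_neg hwe, if_neg hwe]
          by_cases hwM : w ∈ M
          · rw [if_pos hwM, if_neg (hMN w hwM), hMall w hwM, add_self_K, add_zero]
          · by_cases hwN : w ∈ N
            · rw [if_neg hwM, if_pos hwN, hNall w hwN, zero_add, add_self_K]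
            · rw [if_neg hwM, if_neg hwN, hκ0 w hwe hwM hwN, add_zero, add_zero]
        · rw [Pi.add_apply, Pi.add_apply, pw, pw, if_pos rfl, if_pos rfl]
          rcases hκe with h9 | h9 <;> rw [h9] <;> decide
      calc pw D e M + κ = pw D e M + κ + (pw D e N + pw D e N) := by
            have : pw D e N + pw D e N = 0 := by
              funext w; exact add_self_K _
            rw [this, add_zero]
        _ = (pw D e M + κ + pw D e N) + pw D e N := (add_assoc _ _ _).symm
        _ = pw D e N := by rw [h9, zero_add]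
    rw [hsum] at h2
    have h10 := hmin N hN Y₂ h2
    have h11 : Y₂ ⊂ Y := by
      refine ⟨h4, fun h12 => ?_⟩
      have := hS.own _ _ h2 v (h12 hv)
      rw [pw, if_neg hve, if_pos hvN] at this
      exact ne_zero_of_fst (letter v hve) this
    exact absurd (Finset.card_lt_card h11) (by omega)
  · have hM0' : ∀ w ∈ M, κ w = 0 := by
      intro w hw
      have hwe : w ≠ e := fun h0 => (hP.mem M hM).2.1 (h0 ▸ hw)
      by_contra h9
      exact Finset.disjoint_left.1 h8 hw (mem_sup.2 ⟨hwe, h9⟩)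
    have hsum : κ = pw D e N := by
      have h9 : κ + pw D e N = 0 := by
        apply zero_of
        · exact L.add_mem hκL (hP.mem N hN).2.2
        · intro w hwe
          rw [Pi.add_apply]
          unfold pw
          rw [if_neg hwe]
          by_cases hwM : w ∈ M
          · rw [if_neg (hMN w hwM), hM0' w hwM, add_zero]
          · by_cases hwN : w ∈ N
            · rw [if_pos hwN, hNall w hwN, add_self_K]
            · rw [if_neg hwN, hκ0 w hwe hwM hwN, add_zero]
        · rw [Pi.add_apply, pw, if_pos rfl]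
          rcases hκe with h9 | h9 <;> rw [h9] <;> decide
      calc κ = κ + (pw D e N + pw D e N) := by
            have : pw D e N + pw D e N = 0 := by
              funext w; exact add_self_K _
            rw [this, add_zero]
        _ = (κ + pw D e N) + pw D e N := (add_assoc _ _ _).symm
        _ = pw D e N := by rw [h9, zero_add]
    rw [hsum] at h1
    have h10 := hmin N hN Y₁ h1
    have h11 : Y₁ ⊂ Y := by
      refine ⟨h3, fun h12 => ?_⟩
      have := hS.own _ _ h1 v (h12 hv)
      rw [pw, if_neg hve, if_pos hvN] at this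
      exact ne_zero_of_fst (letter v hve) this
    exact absurd (Finset.card_lt_card h11) (by omega)

end Pool.Agent.H95.End
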